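import Mathlib
import Pool.Agent.Helper65K9.NL.ConeLC
import Pool.Agent.Helper65K9.NL.NotLC
import Pool.Agent.Y364.E3.Tree

set_option autoImplicit false

/-!
# Non-evasive balls which are not locally constructible, in every dimension at least four

The definitions `IsCx`, `realization`, `IsBall`, `IsFacet`, `AtMostTwo`, `SameFace`, `NonEvasive`
are in `Pool.Agent.H933R3.Defs`, the definitions `TreeStage`, `GlueStage`, `IsTreeLC` are in
`Pool.Agent.Y364.E3.Tree` (these are the definitions of the starting result
`NonEvasiveThreeBallLC`, which says that there is no such ball in dimension three).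

The examples are iterated cones over a triangulated 3-ball with 14 vertices and 64 tetrahedra which
has a knotted spanning edge. Cones are non-evasive; the cone over `K` is locally constructible only
if `K` is; and a locally constructible complex has a cyclic group of the complement of one
spanning edge, while here this group maps onto the symmetric group of three letters.
-/

namespace Pool.Agent.Results.MP_9638d9_co.NonEvasiveNotLC

open Finset Pool.Agent.H933R3 Pool.Agent.Y364.E3 Pool.Agent.Helper65K9.NL

theorem lcStage_of_tree {V : Type} [DecidableEq V] {d : ℕ} {K 𝓕 T : Finset (Finset V)}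
    (h : TreeStage d K 𝓕 T) : LCStage d K 𝓕 T := by
  induction h with
  | start F hF => exact LCStage.start F hF
  | attach 𝓕 T F F' R _ hF hF' hn hR h1 h2 hT ih =>
    exact LCStage.attach 𝓕 T F F' R ih hF hF' hn hR h1 h2 hT

theorem lcStage_of_glue {V : Type} [DecidableEq V] {d : ℕ} {K 𝓕 T G : Finset (Finset V)}
    (h0 : LCStage d K 𝓕 T) (h : GlueStage d 𝓕 T G) : LCStage d K 𝓕 G := by
  induction h with
  | start => exact h0
  | glue G F F' R A _ hF hF' hne hR h1 h2 hG hA hAR hs ih =>
    exact LCStage.glue 𝓕 G F F' R A ih hF hF' hne hR h1 h2 hG hA hAR hs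

theorem isLC_of_isTreeLC {V : Type} [DecidableEq V] {d : ℕ} {K : Finset (Finset V)}
    (h : IsTreeLC d K) : IsLC d K := by
  obtain ⟨h1, h2, 𝓕, T, G, h3, h4, h5⟩ := h
  exact ⟨h1, h2, 𝓕, G, lcStage_of_glue (lcStage_of_tree h3) h4, h5⟩

theorem iterated (k : ℕ) : ∃ K : Finset (Finset (Fin (14 + k))),
    IsCx K ∧ IsBall (3 + k) K ∧ ¬ IsLC (3 + k) K := by
  induction k with
  | zero => exact ⟨B14, isCx_B14, isBall_B14, not_isLC_B14⟩
  | succ k ih =>
    obtain ⟨K, h1, h2, h3⟩ := ih
    exact ⟨con K, isCx_con h1, isBall_con h2, fun h => h3 (isLC_of_con h)⟩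

/-- For every `d ≥ 4` there is a non-evasive triangulated `d`-ball (with at most `d + 11` vertices)
which is not locally constructible. -/
theorem result : ∀ d : ℕ, 4 ≤ d → ∃ K : Finset (Finset (Fin (d + 11))),
    IsCx K ∧ IsBall d K ∧ NonEvasive K ∧ ¬ IsTreeLC d K := by
  intro d hd
  obtain ⟨k, rfl⟩ := Nat.exists_eq_add_of_le hd
  obtain ⟨K, h1, h2, h3⟩ := iterated k
  have e1 : 4 + k + 11 = 14 + k + 1 := by omega
  have e2 : 4 + k = 3 + k + 1 := by omega
  rw [e1, e2]
  exact ⟨con K, isCx_con h1, isBall_con h2, nonEvasive_con h1,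
    fun h => h3 (isLC_of_con (isLC_of_isTreeLC h))⟩

end Pool.Agent.Results.MP_9638d9_co.NonEvasiveNotLC
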